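import Pool.Agent.Q260.AH.Da

/-!
# Job WA of project AH: Weierstrass approximation of the tent by exponentials
-/

set_option autoImplicit false

namespace Pool.Agent.Q154.AH

open MeasureTheory Filter Topology Set Pool.Agent.Q260.AH

/-- The tent in the variable `y = exp (-2 α)`, divided by `y`. -/
noncomputable def fy (R y : ℝ) : ℝ := max 0 (R + Real.log (max y (Real.exp (-(2 * R)))) / 2) / max y (Real.exp (-(2 * R)))

theorem fy_cont (R : ℝ) : Continuous (fy R) := by
  unfold fy
  have hpos : ∀ y : ℝ, max y (Real.exp (-(2 * R))) ≠ 0 := fun y =>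
    (lt_of_lt_of_le (Real.exp_pos _) (le_max_right _ _)).ne'
  have hc : Continuous fun y : ℝ => max y (Real.exp (-(2 * R))) := continuous_id.max continuous_const
  exact (continuous_const.max (continuous_const.add ((hc.log hpos).div_const 2))).div hc hpos

theorem fy_exp {R α : ℝ} (hR : 0 < R) (hα : 0 ≤ α) :
    Real.exp (-(2 * α)) * fy R (Real.exp (-(2 * α))) = max 0 (R - α) := by
  unfold fy
  by_cases h : α ≤ R
  · have h1 : Real.exp (-(2 * R)) ≤ Real.exp (-(2 * α)) := Real.exp_le_exp.2 (by linarith)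
    rw [max_eq_left h1, Real.log_exp, mul_div_cancel₀]
    · congr 1; ring
    · exact (Real.exp_pos _).ne'
  · have h1 : Real.exp (-(2 * α)) ≤ Real.exp (-(2 * R)) := Real.exp_le_exp.2 (by linarith [not_le.1 h])
    rw [max_eq_right h1, Real.log_exp, max_eq_left (by ring_nf; exact le_rfl), max_eq_left (by linarith [not_le.1 h])]
    simp

theorem t_WA : S_WA := by
  intro R ε hR hε
  obtain ⟨p, hp⟩ := exists_polynomial_near_of_continuousOn 0 1 (fy R) (fy_cont R).continuousOn ε hε
  refine ⟨p.natDegree + 1, fun k => p.coeff k, fun α hα => ?_⟩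
  set y : ℝ := Real.exp (-(2 * α)) with hy
  have hy0 : 0 < y := Real.exp_pos _
  have hy1 : y ≤ 1 := Real.exp_le_one_iff.2 (by linarith)
  have h1 := hp y ⟨hy0.le, hy1⟩
  have h2 : (∑ k ∈ Finset.range (p.natDegree + 1), p.coeff k * Real.exp (-(2 * (k + 1) * α))) = y * p.eval y := by
    rw [Polynomial.eval_eq_sum_range, Finset.mul_sum]
    refine Finset.sum_congr rfl fun k _ => ?_
    have : Real.exp (-(2 * ((k : ℝ) + 1) * α)) = y ^ (k + 1) := by
      rw [hy, ← Real.exp_nat_mul]; congr 1; push_cast; ring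
    rw [this]; ring
  rw [h2, ← fy_exp hR hα, ← hy, ← mul_sub, abs_mul, abs_of_pos hy0, mul_comm ε]
  exact mul_le_mul_of_nonneg_left h1.le hy0.le

end Pool.Agent.Q154.AH
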